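import Pool.Agent.Q260.MZ.Zero

set_option autoImplicit false

/-!
# Distinct zeros of all Dirichlet L-functions in all windows along dilations and powers

No hypothesis is assumed.  Let `u_k` be any sequence of positive numbers that grows faster than
every power of `k`, for instance `2 ^ k`.  For almost every `α > 0`, for all primitive Dirichlet
characters `χ` (modulus `1`: the Riemann zeta function) and all `0 < η < 1`, `ε > 0`: for all large
`k` every interval `(y, y + H]` with `y = α u_k` and `y ^ η ≤ H ≤ y / 16` contains at least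
`((3 - c((1 + η)/2))/2 - ε) N` distinct zeros, `N` being the number of the zeros counted with
multiplicity and `c(h) = h/2 + cot(h/√2)/√2`.  The proportion is larger than `5/12` for every
`η > 0`.  For fixed `χ`, `η`, `ε` the exceptional `α` form a set of Hausdorff dimension less than
one, with a bound that does not depend on the sequence.  The same holds for the powers `α ^ k`.
-/

open Filter Topology Complex MeasureTheory

namespace Pool.Agent.Results.MP_f259ea_nt.DistinctAlongDilations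

/-- the nontrivial zeros of `L(s, χ)` with ordinate in `(T₁, T₂]` -/
def zeros {q : ℕ} [NeZero q] (χ : DirichletCharacter ℂ q) (T₁ T₂ : ℝ) : Set ℂ :=
  {s : ℂ | DirichletCharacter.LFunction χ s = 0 ∧ 0 < s.re ∧ s.re < 1 ∧ T₁ < s.im ∧ s.im ≤ T₂}

/-- the number of nontrivial zeros with ordinate in `(T₁, T₂]`, counted with multiplicity -/
noncomputable def N {q : ℕ} [NeZero q] (χ : DirichletCharacter ℂ q) (T₁ T₂ : ℝ) : ℕ :=
  ∑ᶠ s ∈ zeros χ T₁ T₂, analyticOrderNatAt (DirichletCharacter.LFunction χ) s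

/-- the number of distinct zeros with ordinate in `(T₁, T₂]` -/
noncomputable def Nd {q : ℕ} [NeZero q] (χ : DirichletCharacter ℂ q) (T₁ T₂ : ℝ) : ℕ :=
  (zeros χ T₁ T₂).ncard

/-- the constant `c(h) = h/2 + cot(h/√2)/√2`; `c(1) = c_MT⁻¹ = 1.3274...` -/
noncomputable def c (h : ℝ) : ℝ := h / 2 + Real.cot (h / Real.sqrt 2) / Real.sqrt 2

/-- in every window `(y, y + H]`, `y ^ η ≤ H ≤ y / 16`, at least
`((3 - c((1 + η)/2))/2 - ε) N χ y (y + H)` distinct zeros -/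
def Good {q : ℕ} [NeZero q] (χ : DirichletCharacter ℂ q) (η ε y : ℝ) : Prop :=
  ∀ H : ℝ, y ^ η ≤ H → H ≤ y / 16 →
    ((3 - c ((1 + η) / 2)) / 2 - ε) * (N χ y (y + H) : ℝ) ≤ (Nd χ y (y + H) : ℝ)

/-- `u_k` grows faster than every power of `k` -/
def SuperPoly (u : ℕ → ℝ) : Prop :=
  (∀ k, 0 < u k) ∧ ∀ A : ℝ, ∀ᶠ k : ℕ in atTop, (k : ℝ) ^ A ≤ u k

/-- `v_k / log k → ∞` -/
def SuperLog (v : ℕ → ℝ) : Prop := ∀ A : ℝ, ∀ᶠ k : ℕ in atTop, A * Real.log k ≤ v k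

section

variable {q : ℕ} [NeZero q] (χ : DirichletCharacter ℂ q) (T₁ T₂ : ℝ)

theorem zeros_eq : zeros χ T₁ T₂ = H370.zset (DirichletCharacter.LFunction χ) T₁ T₂ := by
  ext s
  simp only [zeros, H370.zset, Set.mem_ofPred_eq]
  tauto

/-- the sets of zeros that are counted are finite -/
theorem zeros_finite (hχ : χ.IsPrimitive) (h : 0 < T₁) : (zeros χ T₁ T₂).Finite := by
  rw [zeros_eq]
  exact H370.zset_finite' (H370.good_dirichlet χ hχ) T₁ T₂ h

theorem N_eq : N χ T₁ T₂ = H370.NN (DirichletCharacter.LFunction χ) T₁ T₂ := by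
  unfold N H370.NN
  rw [zeros_eq]
  rfl

theorem Nd_eq : Nd χ T₁ T₂ = H370.Nd (DirichletCharacter.LFunction χ) T₁ T₂ := by
  unfold Nd H370.Nd
  rw [zeros_eq]

end

/-- modulus `1`: the Riemann zeta function -/
theorem zeta_case : (1 : DirichletCharacter ℂ 1).IsPrimitive ∧
    DirichletCharacter.LFunction (1 : DirichletCharacter ℂ 1) = riemannZeta :=
  ⟨DirichletCharacter.isPrimitive_one_level_one, DirichletCharacter.LFunction_modOne_eq⟩

lemma bad_of {q : ℕ} [NeZero q] {χ : DirichletCharacter ℂ q} {η ε y : ℝ} (h : ¬ Good χ η ε y) :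
    Pool.Agent.Q260.MZ.BadS (DirichletCharacter.LFunction χ) η ((1 + η) / 2) (2 * ε) y := by
  unfold Good at h
  push Not at h
  obtain ⟨H, h1, h2, h3⟩ := h
  refine ⟨H, h1, h2, fun hcon => ?_⟩
  have h4 := hcon.2
  have hc : H295SI.cc ((1 + η) / 2) = c ((1 + η) / 2) := rfl
  rw [hc] at h4
  rw [N_eq, Nd_eq] at h3
  linarith

/-- `Good` for rational parameters implies it for all parameters -/
lemma good_rat {η ε : ℝ} (hη : 0 < η) (hη1 : η < 1) (hε : 0 < ε) :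
    ∃ η₁ ε₁ : ℚ, 0 < (η₁ : ℝ) ∧ (η₁ : ℝ) < 1 ∧ 0 < (ε₁ : ℝ) ∧
      ∀ (q : ℕ) [NeZero q] (χ : DirichletCharacter ℂ q) (y : ℝ), 1 ≤ y →
        Good χ η₁ ε₁ y → Good χ η ε y := by
  have hc := H370.AS.cc_cont ((1 + η) / 2) (by linarith) (by linarith)
  have h1 : ContinuousAt (fun x : ℝ => H295SI.cc ((1 + x) / 2)) η := by
    have h2 : ContinuousAt (fun x : ℝ => (1 + x) / 2) η := by fun_prop
    exact ContinuousAt.comp (g := H295SI.cc) hc h2
  have h2 : ∀ᶠ x : ℝ in 𝓝[<] η, (0 < x ∧ x < η) ∧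
      H295SI.cc ((1 + x) / 2) < H295SI.cc ((1 + η) / 2) + ε / 2 := by
    have e1 : ∀ᶠ x : ℝ in 𝓝[<] η, 0 < x := nhdsWithin_le_nhds (lt_mem_nhds hη)
    have e2 : ∀ᶠ x : ℝ in 𝓝[<] η, x < η := self_mem_nhdsWithin
    have e3 : ∀ᶠ x : ℝ in 𝓝[<] η, H295SI.cc ((1 + x) / 2) < H295SI.cc ((1 + η) / 2) + ε / 2 :=
      nhdsWithin_le_nhds (h1.eventually (gt_mem_nhds (by linarith)))
    exact (e1.and e2).and e3
  obtain ⟨a, ha, h3⟩ := (mem_nhdsLT_iff_exists_Ioo_subset).1 h2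
  obtain ⟨η₁, hη1a, hη1b⟩ := exists_rat_btwn (show a < η from ha)
  obtain ⟨⟨h4, h5⟩, h6⟩ := h3 ⟨hη1a, hη1b⟩
  obtain ⟨ε₁, hε1, hε2⟩ := exists_rat_btwn (show (0 : ℝ) < ε / 2 by linarith)
  refine ⟨η₁, ε₁, h4, by linarith, hε1, fun q _ χ y hy hg H hH1 hH2 => ?_⟩
  have h7 := hg H ((Real.rpow_le_rpow_of_exponent_le hy h5.le).trans hH1) hH2
  refine le_trans (mul_le_mul_of_nonneg_right ?_ (Nat.cast_nonneg _)) h7
  have h8 : ∀ x, H295SI.cc x = c x := fun x => rfl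
  rw [h8, h8] at h6
  linarith

lemma c_bound {h : ℝ} (h0 : 1 / 2 < h) (h1 : h ≤ 1) : 5 / 12 < (3 - c h) / 2 := by
  have h2 : c h ≤ 1 / h + h / 3 := H295SI.cc_le h (by linarith) h1
  have h3 : 1 / h + h / 3 < 13 / 6 := by
    have h4 : 0 < h := by linarith
    rw [← sub_pos]
    have e : 13 / 6 - (1 / h + h / 3) = (13 * h - 6 - 2 * h ^ 2) / (6 * h) := by
      field_simp
      ring
    rw [e]
    apply div_pos _ (by linarith)
    nlinarith
  linarith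

/-- Distinct zeros of Dirichlet L-functions in all windows along dilations `α u_k` and powers
`α ^ v_k`, for almost every parameter and outside a set of parameters of dimension less than
one. -/
theorem result :
    -- the exceptional parameters have dimension less than one
    (∀ (q : ℕ) [NeZero q] (χ : DirichletCharacter ℂ q), χ.IsPrimitive →
      ∀ η ε : ℝ, 0 < η → η < 1 → 0 < ε → ∃ δ : ℝ, 0 < δ ∧ δ < 1 ∧
        (∀ u : ℕ → ℝ, SuperPoly u → dimH {α : ℝ | 0 < α ∧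
          ∃ᶠ k in atTop, ¬ Good χ η ε (α * u k)} ≤ ENNReal.ofReal (1 - δ)) ∧
        (∀ v : ℕ → ℝ, SuperLog v → dimH {α : ℝ | 1 < α ∧
          ∃ᶠ k in atTop, ¬ Good χ η ε (α ^ v k)} ≤ ENNReal.ofReal (1 - δ))) ∧
    -- almost every parameter, for all lengths, all `η`, `ε` and all characters
    (∀ u : ℕ → ℝ, SuperPoly u → ∀ᵐ α : ℝ, 0 < α →
      ∀ (q : ℕ) [NeZero q] (χ : DirichletCharacter ℂ q), χ.IsPrimitive →
        ∀ η ε : ℝ, 0 < η → η < 1 → 0 < ε → ∀ᶠ k in atTop, Good χ η ε (α * u k)) ∧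
    (∀ v : ℕ → ℝ, SuperLog v → ∀ᵐ α : ℝ, 1 < α →
      ∀ (q : ℕ) [NeZero q] (χ : DirichletCharacter ℂ q), χ.IsPrimitive →
        ∀ η ε : ℝ, 0 < η → η < 1 → 0 < ε → ∀ᶠ k in atTop, Good χ η ε (α ^ v k)) ∧
    -- the proportion
    ∀ η : ℝ, 0 < η → η ≤ 1 → 5 / 12 < (3 - c ((1 + η) / 2)) / 2 := by
  have hfew : ∀ (q : ℕ) [NeZero q] (χ : DirichletCharacter ℂ q), χ.IsPrimitive →
      ∀ η ε : ℝ, 0 < η → η < 1 → 0 < ε → ∃ δ : ℝ, 0 < δ ∧ δ < 1 ∧
        Pool.Agent.Q260.MZ.Few (Pool.Agent.Q260.MZ.BadS (DirichletCharacter.LFunction χ) η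
          ((1 + η) / 2) (2 * ε)) δ := fun q _ χ hχ η ε h0 h1 h2 =>
    Pool.Agent.Q260.MZ.few_simple (H370.good_dirichlet χ hχ)
      (Pool.Agent.TH822.AA.almost_prim χ hχ) h0 h1 (by linarith) (by linarith) (by linarith)
  have haeF : ∀ (p : ℝ → ℕ → ℝ) (a₀ : ℝ), 0 ≤ a₀ →
      (∀ α, a₀ < α → ∀ᶠ k in atTop, 1 ≤ p α k) →
      (∀ (B : ℝ → Prop) (δ : ℝ), 0 < δ → δ < 1 → Pool.Agent.Q260.MZ.Few B δ →
        ∀ᵐ α : ℝ, a₀ < α → ∀ᶠ k in atTop, ¬ B (p α k)) →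
      ∀ᵐ α : ℝ, a₀ < α → ∀ (q : ℕ) [NeZero q] (χ : DirichletCharacter ℂ q), χ.IsPrimitive →
        ∀ η ε : ℝ, 0 < η → η < 1 → 0 < ε → ∀ᶠ k in atTop, Good χ η ε (p α k) := by
    intro p a₀ ha₀ hp hB
    have h1 : ∀ᵐ α : ℝ, ∀ (q : ℕ) (η₁ ε₁ : ℚ), ∀ (hq : NeZero q) (χ : DirichletCharacter ℂ q),
        χ.IsPrimitive → 0 < (η₁ : ℝ) → (η₁ : ℝ) < 1 → 0 < (ε₁ : ℝ) → a₀ < α →
          ∀ᶠ k in atTop, Good χ η₁ ε₁ (p α k) := by
      rw [ae_all_iff]
      intro q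
      rw [ae_all_iff]
      intro η₁
      rw [ae_all_iff]
      intro ε₁
      by_cases hq : NeZero q
      swap
      · exact Eventually.of_forall fun α hq' => absurd hq' hq
      have hcnt : Countable (DirichletCharacter ℂ q) := Finite.to_countable
      have h2 : ∀ᵐ α : ℝ, ∀ (χ : DirichletCharacter ℂ q),
          χ.IsPrimitive → 0 < (η₁ : ℝ) → (η₁ : ℝ) < 1 → 0 < (ε₁ : ℝ) → a₀ < α →
          ∀ᶠ k in atTop, Good χ η₁ ε₁ (p α k) := by
        rw [ae_all_iff]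
        intro χ
        by_cases hcond : χ.IsPrimitive ∧ 0 < (η₁ : ℝ) ∧ (η₁ : ℝ) < 1 ∧ 0 < (ε₁ : ℝ)
        · obtain ⟨c1, c2, c3, c4⟩ := hcond
          obtain ⟨δ, hδ0, hδ1, hf⟩ := hfew q χ c1 η₁ ε₁ c2 c3 c4
          filter_upwards [hB _ δ hδ0 hδ1 hf] with α hα _ _ _ _ h5
          filter_upwards [hα h5] with k hk
          by_contra hcon
          exact hk (bad_of hcon)
        · exact Eventually.of_forall fun α c1 c2 c3 c4 => absurd ⟨c1, c2, c3, c4⟩ hcond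
      filter_upwards [h2] with α hα _
      exact hα
    filter_upwards [h1] with α hα ha q hq χ hχ η ε h2 h3 h4
    obtain ⟨η₁, ε₁, g1, g2, g3, g4⟩ := good_rat h2 h3 h4
    filter_upwards [hα q η₁ ε₁ hq χ hχ g1 g2 g3 ha, hp α ha] with k hk hk1
    exact g4 q χ _ hk1 hk
  refine ⟨fun q _ χ hχ η ε h0 h1 h2 => ?_, fun u hu => ?_, fun v hv => ?_, fun η h0 h1 =>
    c_bound (by linarith) (by linarith)⟩
  · obtain ⟨δ, hδ0, hδ1, hf⟩ := hfew q χ hχ η ε h0 h1 h2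
    refine ⟨δ, hδ0, hδ1, fun u hu => ?_, fun v hv => ?_⟩
    · refine (dimH_mono ?_).trans (Pool.Agent.Q260.MZ.dil_dim hf hδ1 u hu.1 hu.2)
      rintro α ⟨hα, hfr⟩
      exact ⟨hα, hfr.mono fun k hk => bad_of hk⟩
    · refine (dimH_mono ?_).trans (Pool.Agent.Q260.MZ.pow_dim hf hδ1 v hv)
      rintro α ⟨hα, hfr⟩
      exact ⟨hα, hfr.mono fun k hk => bad_of hk⟩
  · refine haeF (fun α k => α * u k) 0 le_rfl (fun α hα => ?_) fun B δ h0 h1 hB =>
      Pool.Agent.Q260.MZ.dil_ae hB h0 h1 u hu.1 hu.2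
    have hut : Tendsto u atTop atTop := by
      refine tendsto_atTop_mono' _ (hu.2 1) ?_
      simpa using tendsto_natCast_atTop_atTop (R := ℝ)
    filter_upwards [hut.eventually_ge_atTop (1 / α)] with k hk
    rw [div_le_iff₀ hα] at hk
    linarith
  · refine haeF (fun α k => α ^ v k) 1 (by norm_num) (fun α hα => ?_) fun B δ h0 h1 hB =>
      Pool.Agent.Q260.MZ.pow_ae hB h0 h1 v hv
    filter_upwards [hv 0] with k hk
    rw [zero_mul] at hk
    exact Real.one_le_rpow hα.le hk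

end Pool.Agent.Results.MP_f259ea_nt.DistinctAlongDilations
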