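import Pool.Agent.Q253.LC.C7

set_option autoImplicit false

/-!
# One inequality for primes for every Dirichlet character: the Riemann hypothesis and the simplicity of all zeros

No hypothesis is assumed.  For a character `χ` modulo `q` and `x = e^u` put
`P(u) = ∑_n Λ(n) χ(n) n^(-1/2) min(n/x, x/n)`, minus `(8/3) √x` for the principal character.  The mean square
`(1/U) ∫_0^U |P|²` has an upper limit at most `2 Re (Λ'/Λ - (Λ'/Λ)')(3/2, χ)`, a number which depends only on the primes, if and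
only if all nontrivial zeros of `L(s, χ)` are simple and have real part `1/2`.
-/

open Filter Topology Set Complex
open DirichletCharacter (LFunction completedLFunction)

namespace Pool.Agent.Results.MP_f259ea_nt.OneInequalityPerCharacter

variable {q : ℕ} [NeZero q]

/-- the Riemann hypothesis for `L(s, χ)` -/
def GRH (χ : DirichletCharacter ℂ q) : Prop := ∀ s : ℂ, 1 / 2 < s.re → s.re < 1 → LFunction χ s ≠ 0

/-- all zeros of `L(s, χ)` in the critical strip are simple -/
def Simple (χ : DirichletCharacter ℂ q) : Prop :=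
  ∀ s : ℂ, 0 < s.re → s.re < 1 → LFunction χ s = 0 → deriv (LFunction χ) s ≠ 0

open Classical in
/-- `∑_n Λ(n) χ(n) n^(-1/2) min(n/x, x/n)`, minus `(8/3) √x` for the principal character, for `x = e^u` -/
noncomputable def P (χ : DirichletCharacter ℂ q) (u : ℝ) : ℂ :=
  (∑' n : ℕ, ((ArithmeticFunction.vonMangoldt n : ℝ) : ℂ) * χ (n : ZMod q) *
    ((Real.exp (-(Real.log n / 2)) * Real.exp (-|u - Real.log n|) : ℝ) : ℂ)) -
    (if χ = 1 then ((8 / 3 * Real.exp (u / 2) : ℝ) : ℂ) else 0)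

/-- the mean square of `P` -/
noncomputable def meanSquare (χ : DirichletCharacter ℂ q) (U : ℝ) : ℝ :=
  (1 / U) * ∫ u in (0 : ℝ)..U, ‖P χ u‖ ^ 2

/-- Riemann's function -/
noncomputable def xi (s : ℂ) : ℂ := (1 + s * (s - 1) * completedRiemannZeta₀ s) / 2

open Classical in
/-- the completed `L`-function of the primitive character which induces `χ` (for the principal character: Riemann's
function) -/
noncomputable def XL (χ : DirichletCharacter ℂ q) (s : ℂ) : ℂ :=
  haveI : NeZero χ.conductor := ⟨χ.conductor_ne_zero⟩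
  if χ = 1 then xi s else (χ.conductor : ℂ) ^ (s / 2) * completedLFunction χ.primitiveCharacter s

/-- the critical value `2 Re (Λ'/Λ(3/2, χ) - (Λ'/Λ)'(3/2, χ))` -/
noncomputable def V (χ : DirichletCharacter ℂ q) : ℝ :=
  2 * (logDeriv (XL χ) (3 / 2) - deriv (logDeriv (XL χ)) (3 / 2)).re

/-- the multiplicity of the zero `1/2 + iγ` of `L(s, χ)` (it is `0` if this is no zero) -/
noncomputable def mult (χ : DirichletCharacter ℂ q) (γ : ℝ) : ℕ :=
  analyticOrderNatAt (LFunction χ) (1 / 2 + (γ : ℂ) * I)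

/-- For every Dirichlet character `χ`, without hypothesis.  (1) The Riemann hypothesis for `L(s, χ)` and the simplicity of
all its nontrivial zeros are together equivalent to the inequality `limsup (1/U) ∫_0^U |P|² ≤ V`; (2) and to the
convergence of the mean square to `V`.  (3) Under the Riemann hypothesis for `L(s, χ)` the mean square tends to
`V + ∑_γ m(γ) (m(γ) - 1) (2/(1+γ²))²`, a convergent series.  (4) If the upper limit is at most `V + δ`, then the Riemann
hypothesis holds for `L(s, χ)` and `m(γ) (m(γ) - 1) (2/(1+γ²))² ≤ δ` for all `γ`. -/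
theorem result (χ : DirichletCharacter ℂ q) :
    ((GRH χ ∧ Simple χ) ↔ ∀ ε : ℝ, 0 < ε → ∀ᶠ U : ℝ in atTop, meanSquare χ U ≤ V χ + ε) ∧
    ((GRH χ ∧ Simple χ) ↔ Tendsto (meanSquare χ) atTop (𝓝 (V χ))) ∧
    (GRH χ → Summable (fun γ : ℝ => ((mult χ γ : ℝ) * ((mult χ γ : ℝ) - 1)) * (2 / (1 + γ ^ 2)) ^ 2) ∧
      Tendsto (meanSquare χ) atTop
        (𝓝 (V χ + ∑' γ : ℝ, ((mult χ γ : ℝ) * ((mult χ γ : ℝ) - 1)) * (2 / (1 + γ ^ 2)) ^ 2))) ∧
    (∀ δ : ℝ, (∀ ε : ℝ, 0 < ε → ∀ᶠ U : ℝ in atTop, meanSquare χ U ≤ V χ + δ + ε) →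
      GRH χ ∧ ∀ γ : ℝ, ((mult χ γ : ℝ) * ((mult χ γ : ℝ) - 1)) * (2 / (1 + γ ^ 2)) ^ 2 ≤ δ) := by
  obtain ⟨h1, h2⟩ := Pool.Agent.Q253.LC.main_ms χ
  refine ⟨h1, h2, fun hG => ⟨Pool.Agent.Q253.LC.XS_sm hG, ?_⟩, fun δ h => ?_⟩
  · have h3 := Pool.Agent.Q253.LC.ms_tendsto hG
    rw [Pool.Agent.Q253.LC.lim_eq hG] at h3
    exact h3
  · obtain ⟨a, -, b⟩ := Pool.Agent.Q253.LC.quant χ h
    exact ⟨a, b⟩

end Pool.Agent.Results.MP_f259ea_nt.OneInequalityPerCharacter
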