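import Pool.Agent.Q253.CP.F7

set_option autoImplicit false

/-!
# Primes in subgroups modulo `q`, in short intervals, and the zeros of all the `L`-functions of an abelian field

No hypothesis is assumed.  Let `H` be a subgroup of `(ℤ/q)ˣ`; the characters modulo `q` which are trivial on `H` are
those of the subfield `K` of the `q`-th cyclotomic field fixed by `H`, the product of their `L`-functions is the
Dedekind zeta function of `K` up to Euler factors at `p ∣ q`, and the primes whose class is in `H` are the primes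
(not dividing `q`) which split completely in `K`.  For `H = 1`: all characters modulo `q`, and the primes
`≡ 1 (mod q)`; for `H` everything: the zeta function and all primes.  `[K : ℚ]` is the index of `H`.

`V(T, b) = (T / log² T) ∫_T^{T^b} (ψ_H(x + x/T) - ψ_H(x) - x/([K:ℚ] T))² dx / x²`, where `ψ_H(x)` is the sum of `Λ(n)`,
`n ≤ x`, the class of `n` in `H`.
-/

open Filter Topology Set Complex
open DirichletCharacter (LFunction)

namespace Pool.Agent.Results.MP_f259ea_nt.PrimesInSubgroups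

variable {q : ℕ} [NeZero q]

open Classical in
/-- the Dirichlet characters modulo `q` which are trivial on `H` -/
noncomputable def chars (H : Subgroup (ZMod q)ˣ) : Finset (DirichletCharacter ℂ q) :=
  Finset.univ.filter fun χ => ∀ u ∈ H, χ (u : ZMod q) = 1

/-- the Riemann hypothesis for these `L`-functions -/
def GRH (H : Subgroup (ZMod q)ˣ) : Prop :=
  ∀ χ ∈ chars H, ∀ s : ℂ, 1 / 2 < s.re → s.re < 1 → LFunction χ s ≠ 0

/-- the nontrivial zeros of these `L`-functions with `|Im s| ≤ T` -/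
def zeros (H : Subgroup (ZMod q)ˣ) (T : ℝ) : Set ℂ :=
  {s | 0 < s.re ∧ s.re < 1 ∧ |s.im| ≤ T ∧ ∃ χ ∈ chars H, LFunction χ s = 0}

/-- the multiplicity of a zero of the product: it is `1` if and only if `s` is a zero of exactly one of the
`L`-functions, and a simple one -/
noncomputable def mult (H : Subgroup (ZMod q)ˣ) (s : ℂ) : ℕ := ∑ χ ∈ chars H, analyticOrderNatAt (LFunction χ) s

/-- the number of zeros, with multiplicity -/
noncomputable def N (H : Subgroup (ZMod q)ˣ) (T : ℝ) : ℕ := ∑ᶠ s ∈ zeros H T, mult H s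

/-- the number of ordered pairs of zeros, with multiplicity, the diagonal included, whose ordinates differ by at
most `β` times `2π / log T` -/
noncomputable def P (H : Subgroup (ZMod q)ˣ) (T β : ℝ) : ℕ :=
  ∑ᶠ p ∈ {p : ℂ × ℂ | p.1 ∈ zeros H T ∧ p.2 ∈ zeros H T ∧ |p.1.im - p.2.im| * Real.log T / (2 * Real.pi) ≤ β},
    mult H p.1 * mult H p.2

/-- the number, with multiplicity, of the zeros which are off the line, or multiple, or shared by two of the
`L`-functions -/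
noncomputable def Bad (H : Subgroup (ZMod q)ˣ) (T : ℝ) : ℕ :=
  ∑ᶠ s ∈ {s : ℂ | s ∈ zeros H T ∧ (s.re ≠ 1 / 2 ∨ mult H s ≠ 1)}, mult H s

open Classical in
/-- `ψ_H(x)`: the sum of `Λ(n)` over `n ≤ x` with class in `H` -/
noncomputable def psi (H : Subgroup (ZMod q)ˣ) (x : ℝ) : ℝ :=
  ∑ n ∈ (Finset.Icc 1 ⌊x⌋₊).filter (fun n : ℕ => ∃ u ∈ H, (u : ZMod q) = n), ArithmeticFunction.vonMangoldt n

/-- the normalised variance of `ψ_H` in the intervals `(x, x + x/T]`, `T ≤ x ≤ T ^ b` -/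
noncomputable def V (H : Subgroup (ZMod q)ˣ) (T b : ℝ) : ℝ := T / Real.log T ^ 2 *
  ∫ x in T..(T ^ b), (psi H (x + x / T) - psi H x - x / (H.index * T)) ^ 2 / x ^ 2

/-- `V(T, b) ≤ (1 + η + o(1)) b / [K:ℚ]`, `T → ∞`, then `b → ∞` -/
def Upper (H : Subgroup (ZMod q)ˣ) (η : ℝ) : Prop := ∀ ε : ℝ, 0 < ε → ∃ b₀ : ℝ, ∀ b : ℝ, b₀ ≤ b →
  ∀ᶠ T : ℝ in atTop, V H T b ≤ (1 + η + ε) * (b / H.index)

/-- `V(T, b) ~ b / [K:ℚ]`, `T → ∞`, then `b → ∞` -/
def Asymp (H : Subgroup (ZMod q)ˣ) : Prop := ∀ ε : ℝ, 0 < ε → ∃ b₀ : ℝ, ∀ b : ℝ, b₀ ≤ b →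
  ∀ᶠ T : ℝ in atTop, |V H T b - b / H.index| ≤ ε * (b / H.index)

/-- essential simplicity of the union of the zeros -/
def Ess (H : Subgroup (ZMod q)ˣ) : Prop := ∀ ε : ℝ, 0 < ε → ∃ β : ℝ, 0 < β ∧ ∀ᶠ T : ℝ in atTop,
  (P H T β : ℝ) ≤ (1 + ε) * N H T

/-- the nontrivial zeros of `L(s, χ)` with `T < Im s ≤ 2T`, as in the problem -/
def strip (χ : DirichletCharacter ℂ q) (T : ℝ) : Set ℂ :=
  {s : ℂ | 0 < s.re ∧ s.re < 1 ∧ T < s.im ∧ s.im ≤ 2 * T ∧ LFunction χ s = 0}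

/-- the simple zeros of `L(s, χ)` on the critical line with `T < Im s ≤ 2T` -/
def simple (χ : DirichletCharacter ℂ q) (T : ℝ) : Set ℂ :=
  {s : ℂ | s.re = 1 / 2 ∧ T < s.im ∧ s.im ≤ 2 * T ∧ analyticOrderAt (LFunction χ) s = 1}

/-- For every `q` and every subgroup `H` of `(ℤ/q)ˣ`: (1) the Riemann hypothesis for all the `L`-functions is the
boundedness of `V`; (2) stability: the upper bound with constant `1 + η` gives this Riemann hypothesis, few close pairs
in the union of all zeros, and at most the proportion `9η/4` of zeros which are multiple or shared; (3), (4) the two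
equivalences for `η = 0`; (5) the upper bound with `η = 0` gives the inequality of the problem for each `χ`. -/
theorem result (H : Subgroup (ZMod q)ˣ) :
    ((GRH H ↔ ∀ b : ℝ, 1 ≤ b → ∃ C : ℝ, ∀ᶠ T : ℝ in atTop, V H T b ≤ C) ∧
      (GRH H → ∃ C : ℝ, ∀ b : ℝ, 1 ≤ b → ∀ᶠ T : ℝ in atTop, V H T b ≤ C * b)) ∧
    (∀ η : ℝ, 0 ≤ η → Upper H η → GRH H ∧
      (∀ ε : ℝ, 0 < ε → ∃ β : ℝ, 0 < β ∧ ∀ᶠ T : ℝ in atTop, (P H T β : ℝ) ≤ (1 + 9 / 4 * η + ε) * N H T) ∧
      ∀ ε : ℝ, 0 < ε → ∀ᶠ T : ℝ in atTop, (Bad H T : ℝ) ≤ (9 / 4 * η + ε) * N H T) ∧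
    (Upper H 0 ↔ GRH H ∧ Ess H) ∧ (Asymp H ↔ GRH H ∧ Ess H) ∧
    (Upper H 0 → ∀ χ ∈ chars H, ∀ ε : ℝ, 0 < ε → ∀ᶠ T : ℝ in atTop,
      (1 - ε) * (∑ᶠ ρ ∈ strip χ T, ((analyticOrderAt (LFunction χ) ρ).toNat : ℝ)) ≤ (simple χ T).ncard ∧
        ((simple χ T).ncard : ℝ) ≤ (strip χ T).ncard) :=
  Pool.Agent.Q253.CP.main_H H

end Pool.Agent.Results.MP_f259ea_nt.PrimesInSubgroups
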