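import Pool.Agent.Q84.NX.Real
import Pool.Agent.Q260.MZ.Zero

/-!
# Distinct zeros of Dirichlet L-functions in all windows next to the small multiples of the primes of a string

No hypothesis is assumed.  Let `Q ≥ 1`, `0 < η < 1`, `ε > 0`.  There is `c > 0` such that for all `κ > 0` and `m` there
is `c' > 0` and for every `Z` a number `D` with the following property.  For every large `X` there is a set `S` of at
most `(log X) ^ (49 / 50)` primes, all larger than `Z`, such that for EVERY function `f` with values `1` and `-1` on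
the primes at least `X ^ (1 - κ)` integers `n`, `X < n ≤ 3X`, satisfy: the interval `[n, n + D]` contains at least `m`
primes, and for every prime `p` in it

* the Legendre symbol `(p / q)` is `f q` for all odd primes `q ≤ c' log X` outside `S`;
* for ALL real `x` within `p ^ c` of a multiple `k p`, `1 ≤ k ≤ p ^ c`, for ALL primitive Dirichlet characters `χ` of
  conductor at most `Q` (conductor `1`: the Riemann zeta function) and ALL `H` with `x ^ η ≤ H ≤ x / 16`: the window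
  `(x, x + H]` contains at least `((3 - c((1 + η)/2))/2 - ε) N` distinct zeros of `L(s, χ)` and at least
  `(2 - c((1 + η)/2) - ε) N` simple zeros on the critical line, `N` being the number of the zeros in the window counted
  with multiplicity and `c(h) = h/2 + cot(h/√2)/√2`.

Method: the bound with a power saving for the number of the unit intervals which contain a starting point of an
exceptional window (`Q260/MZ/Zero`, from `DistinctAlmostAllShort`); few primes have an exceptional number near one of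
their small multiples (`Q84/NX/Win`); the Maynard-Tao theorem relative to a modulus which is a small power of `X`, in the
form that it avoids arbitrary exceptional sets of size `X ^ (1 - δ)` (`Q84/MB/E1-E4`), gives the strings.
-/

set_option autoImplicit false

open scoped Classical

namespace Pool.Agent.Results.MP_f259ea_nt.StringsOfPrimes

open Finset Filter

/-- the nontrivial zeros of `L(s, χ)` with ordinate in `(T₁, T₂]` -/
def zeros {q : ℕ} [NeZero q] (χ : DirichletCharacter ℂ q) (T₁ T₂ : ℝ) : Set ℂ :=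
  {s : ℂ | DirichletCharacter.LFunction χ s = 0 ∧ 0 < s.re ∧ s.re < 1 ∧ T₁ < s.im ∧ s.im ≤ T₂}

/-- the number of nontrivial zeros with ordinate in `(T₁, T₂]`, counted with multiplicity -/
noncomputable def N {q : ℕ} [NeZero q] (χ : DirichletCharacter ℂ q) (T₁ T₂ : ℝ) : ℕ :=
  ∑ᶠ s ∈ zeros χ T₁ T₂, analyticOrderNatAt (DirichletCharacter.LFunction χ) s

/-- the number of distinct zeros with ordinate in `(T₁, T₂]` -/
noncomputable def Nd {q : ℕ} [NeZero q] (χ : DirichletCharacter ℂ q) (T₁ T₂ : ℝ) : ℕ :=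
  (zeros χ T₁ T₂).ncard

/-- the number of simple zeros on the critical line with ordinate in `(T₁, T₂]` -/
noncomputable def Ns {q : ℕ} [NeZero q] (χ : DirichletCharacter ℂ q) (T₁ T₂ : ℝ) : ℕ :=
  {s : ℂ | s ∈ zeros χ T₁ T₂ ∧ s.re = 1 / 2 ∧
    analyticOrderNatAt (DirichletCharacter.LFunction χ) s = 1}.ncard

/-- the constant `c(h) = h/2 + cot(h/√2)/√2`; `c(1) = c_MT⁻¹ = 1.3274...` -/
noncomputable def c (h : ℝ) : ℝ := h / 2 + Real.cot (h / Real.sqrt 2) / Real.sqrt 2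

/-- in every window `(y, y + H]`, `y ^ η ≤ H ≤ y / 16`, at least
`((3 - c((1 + η)/2))/2 - ε) N χ y (y + H)` distinct zeros and at least
`(2 - c((1 + η)/2) - ε) N χ y (y + H)` simple zeros on the critical line -/
def Good {q : ℕ} [NeZero q] (χ : DirichletCharacter ℂ q) (η ε y : ℝ) : Prop :=
  ∀ H : ℝ, y ^ η ≤ H → H ≤ y / 16 →
    ((3 - c ((1 + η) / 2)) / 2 - ε) * (N χ y (y + H) : ℝ) ≤ (Nd χ y (y + H) : ℝ) ∧
    (2 - c ((1 + η) / 2) - ε) * (N χ y (y + H) : ℝ) ≤ (Ns χ y (y + H) : ℝ)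

/-- `Good` for all primitive characters of conductor at most `Q` and all real `x` within `p ^ δ` of a multiple `k p`,
`1 ≤ k ≤ p ^ δ` -/
def Fine (Q : ℕ) (η ε δ : ℝ) (p : ℕ) : Prop :=
  ∀ (k : ℕ) (x : ℝ), 1 ≤ k → (k : ℝ) ≤ (p : ℝ) ^ δ → |x - k * p| ≤ (p : ℝ) ^ δ →
    ∀ (q : ℕ) [NeZero q], q ≤ Q → ∀ χ : DirichletCharacter ℂ q, χ.IsPrimitive → Good χ η ε x

section

variable {q : ℕ} [NeZero q] (χ : DirichletCharacter ℂ q) (T₁ T₂ : ℝ)

theorem zeros_eq : zeros χ T₁ T₂ = H370.zset (DirichletCharacter.LFunction χ) T₁ T₂ := by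
  ext s
  simp only [zeros, H370.zset, Set.mem_ofPred_eq]
  tauto

/-- the sets of zeros that are counted are finite -/
theorem zeros_finite (hχ : χ.IsPrimitive) (h : 0 < T₁) : (zeros χ T₁ T₂).Finite := by
  rw [zeros_eq]
  exact H370.zset_finite' (H370.good_dirichlet χ hχ) T₁ T₂ h

theorem N_eq : N χ T₁ T₂ = H370.NN (DirichletCharacter.LFunction χ) T₁ T₂ := by
  unfold N H370.NN
  rw [zeros_eq]
  rfl

theorem Nd_eq : Nd χ T₁ T₂ = H370.Nd (DirichletCharacter.LFunction χ) T₁ T₂ := by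
  unfold Nd H370.Nd
  rw [zeros_eq]

theorem Ns_eq : Ns χ T₁ T₂ = H370.Ns (DirichletCharacter.LFunction χ) T₁ T₂ := by
  unfold Ns H370.Ns
  rw [zeros_eq]
  rfl

end

theorem bad_of {q : ℕ} [NeZero q] {χ : DirichletCharacter ℂ q} {η ε y : ℝ} (hε : 0 ≤ ε) (h : ¬ Good χ η ε y) :
    Pool.Agent.Q260.MZ.BadS (DirichletCharacter.LFunction χ) η ((1 + η) / 2) ε y := by
  unfold Good at h
  push Not at h
  obtain ⟨H, h1, h2, h3⟩ := h
  refine ⟨H, h1, h2, fun hcon => ?_⟩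
  have hc : H295SI.cc ((1 + η) / 2) = c ((1 + η) / 2) := rfl
  have h4 := hcon.2
  have h5 := hcon.1
  rw [hc] at h4 h5
  rw [N_eq, Nd_eq, Ns_eq] at h3
  have hN : (0 : ℝ) ≤ (H370.NN (DirichletCharacter.LFunction χ) y (y + H) : ℝ) := Nat.cast_nonneg _
  have h6 := h3 (by nlinarith)
  linarith

/-- the union of finitely many sets which meet few unit intervals meets few unit intervals -/
theorem few_union {ι : Type} [Fintype ι] (B : ι → ℝ → Prop)
    (h : ∀ i, ∃ δ : ℝ, 0 < δ ∧ δ < 1 ∧ Pool.Agent.Q260.MZ.Few (B i) δ) :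
    ∃ δ C : ℝ, 0 < δ ∧ ∀ H : ℕ, 1 ≤ H →
      (((Ico 1 (1 + H)).filter fun n : ℕ => ∃ y : ℝ, (n : ℝ) ≤ y ∧ y < n + 1 ∧ ∃ i, B i y).card : ℝ) ≤
        C * (H : ℝ) ^ (1 - δ) := by
  choose δ hδ0 hδ1 C hC0 hC using h
  have hP0 : 0 < ∏ j, δ j := prod_pos fun j _ => hδ0 j
  have hle : ∀ i, ∏ j, δ j ≤ δ i := by
    intro i
    rw [← Finset.mul_prod_erase univ δ (mem_univ i)]
    have h1 : ∏ j ∈ univ.erase i, δ j ≤ 1 := Finset.prod_le_one (fun j _ => (hδ0 j).le) (fun j _ => (hδ1 j).le)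
    exact mul_le_of_le_one_right (hδ0 i).le h1
  refine ⟨∏ j, δ j, ∑ i, C i, hP0, fun H hH => ?_⟩
  have hH1 : (1 : ℝ) ≤ H := by exact_mod_cast hH
  have h1 : ((Ico 1 (1 + H)).filter fun n : ℕ => ∃ y : ℝ, (n : ℝ) ≤ y ∧ y < n + 1 ∧ ∃ i, B i y) ⊆
      univ.biUnion fun i => Pool.Agent.Q138.Met.hits (B i) H := by
    intro n hn
    rw [mem_filter, mem_Ico] at hn
    obtain ⟨h2, y, h3, h4, i, h5⟩ := hn
    rw [mem_biUnion]
    exact ⟨i, mem_univ _, Pool.Agent.Q138.Met.mem_hits.2 ⟨⟨h2.1, by omega⟩, y, h3, h4, h5⟩⟩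
  have h3 := (card_le_card h1).trans card_biUnion_le
  have h4 : (((Ico 1 (1 + H)).filter fun n : ℕ => ∃ y : ℝ, (n : ℝ) ≤ y ∧ y < n + 1 ∧ ∃ i, B i y).card : ℝ) ≤
      ∑ i, ((Pool.Agent.Q138.Met.hits (B i) H).card : ℝ) := by exact_mod_cast h3
  refine h4.trans ?_
  rw [sum_mul]
  refine sum_le_sum fun i _ => (hC i H hH).trans ?_
  exact mul_le_mul_of_nonneg_left (Real.rpow_le_rpow_of_exponent_le hH1 (by linarith [hle i])) (hC0 i)

/-- **Theorem.** -/
theorem result (Q : ℕ) (η ε : ℝ) (hη : 0 < η) (hη1 : η < 1) (hε : 0 < ε) : ∃ δ : ℝ, 0 < δ ∧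
    ∀ κ : ℝ, 0 < κ → ∀ m : ℕ, ∃ c' : ℝ, 0 < c' ∧
    ∀ Z : ℕ, ∃ D : ℕ, ∃ X₀ : ℝ, ∀ X : ℝ, X₀ ≤ X →
    ∃ S : Finset ℕ, (∀ q ∈ S, q.Prime ∧ Z < q) ∧ (S.card : ℝ) ≤ (Real.log X) ^ (49 / 50 : ℝ) ∧
    ∀ f : ℕ → ℤ, (∀ q, f q = 1 ∨ f q = -1) →
      X ^ (1 - κ) ≤ (((Icc 1 ⌊3 * X⌋₊).filter fun n : ℕ => X < n ∧
        m ≤ ((Icc n (n + D)).filter Nat.Prime).card ∧
        ∀ p ∈ Icc n (n + D), p.Prime → Fine Q η ε δ p ∧
          ∀ q : ℕ, q.Prime → q ≠ 2 → (q : ℝ) ≤ c' * Real.log X → q ∉ S → jacobiSym p q = f q).card : ℝ) := by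
  have hfew : ∀ i : (Σ a : Fin Q, {χ : DirichletCharacter ℂ (a + 1) // χ.IsPrimitive}),
      ∃ δ : ℝ, 0 < δ ∧ δ < 1 ∧
        Pool.Agent.Q260.MZ.Few (Pool.Agent.Q260.MZ.BadS (DirichletCharacter.LFunction i.2.1) η
          ((1 + η) / 2) ε) δ := fun i =>
    Pool.Agent.Q260.MZ.few_simple (H370.good_dirichlet i.2.1 i.2.2)
      (Pool.Agent.TH822.AA.almost_prim i.2.1 i.2.2) hη hη1 (by linarith) (by linarith) hε
  have : Fintype (Σ a : Fin Q, {χ : DirichletCharacter ℂ (a + 1) // χ.IsPrimitive}) := Fintype.ofFinite _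
  obtain ⟨μ, C, hμ, hB⟩ := few_union _ hfew
  refine ⟨min μ 1 / 16, by have := lt_min hμ one_pos; positivity, fun κ hκ m => ?_⟩
  obtain ⟨c', hc', h⟩ := Pool.Agent.Q84.NX.real_strings _ C μ hμ hB κ hκ m
  refine ⟨c', hc', fun Z => ?_⟩
  obtain ⟨D, X₀, h⟩ := h Z
  refine ⟨D, X₀, fun X hX => ?_⟩
  obtain ⟨S, hS1, hS2, h⟩ := h X hX
  refine ⟨S, hS1, hS2, fun f hf => (h f hf).trans ?_⟩
  rw [Nat.cast_le]
  apply card_le_card
  intro n hn
  rw [mem_filter] at hn ⊢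
  obtain ⟨h1, h2, h3, h4⟩ := hn
  refine ⟨h1, h2, h3, fun p hp hpp => ⟨?_, (h4 p hp hpp).2⟩⟩
  intro k x hk1 hk2 hkx q hq hqQ χ hχ
  by_contra hcon
  have hq0 : 0 < q := Nat.pos_of_ne_zero hq.out
  obtain ⟨a, rfl⟩ : ∃ a, q = a + 1 := ⟨q - 1, by omega⟩
  exact (h4 p hp hpp).1 k x hk1 hk2 hkx ⟨⟨⟨a, by omega⟩, ⟨χ, hχ⟩⟩, bad_of hε.le hcon⟩

end Pool.Agent.Results.MP_f259ea_nt.StringsOfPrimes
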